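import Pool.Agent.TH7.Cyc.Main
import Pool.Agent.TH302.Tarry.Main

/-!
# Deleting a coordinate from an all-or-nothing transform can be impossible

Over an alphabet of six symbols there is no `(1,2,6)`-AONT (it would give two orthogonal latin
squares of order six), but there is a `(1,4,6)`-AONT.
-/

namespace Pool.Agent.Results.MP_2d9e0f_co.OrderSix

open Function

/-- `φ` is a `(t,s,v)`-all-or-nothing transform over the alphabet `Fin v`. -/
def IsAONT (t s v : ℕ) (φ : (Fin s → Fin v) → (Fin s → Fin v)) : Prop :=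
  Bijective φ ∧ ∀ I J : Finset (Fin s), I.card = t → J.card = t →
    Bijective (fun x : Fin s → Fin v =>
      ((fun i => x i, fun j => φ x j) : ({i // i ∈ I} → Fin v) × ({j // j ∉ J} → Fin v)))

/-- there is a `(t,s,v)`-all-or-nothing transform -/
def ExistsAONT (t s v : ℕ) : Prop := ∃ φ, IsAONT t s v φ

/-- no `(1,2,6)`-AONT exists -/
theorem not_two : ¬ ExistsAONT 1 2 6 := by
  rintro ⟨φ, hφ, h⟩
  obtain ⟨ψ, h1, h2⟩ := bijective_iff_has_inverse.1 hφ
  have hinj : ∀ (i j : Fin 2) (x x' : Fin 2 → Fin 6), x i = x' i →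
      (∀ k, k ≠ j → φ x k = φ x' k) → x = x' := by
    intro i j x x' e1 e2
    apply (h {i} {j} (Finset.card_singleton _) (Finset.card_singleton _)).1
    refine Prod.ext ?_ ?_
    · funext k
      obtain ⟨k, hk⟩ := k
      rw [Finset.mem_singleton] at hk
      subst hk
      exact e1
    · funext k
      obtain ⟨k, hk⟩ := k
      rw [Finset.mem_singleton] at hk
      exact e2 k hk
  have hψ : ∀ a b, φ (ψ ![a, b]) = ![a, b] := fun a b => h2 _
  refine Pool.Agent.TH302.Tarry.tarry (fun a b => ψ ![a, b] 0) (fun a b => ψ ![a, b] 1)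
    ?_ ?_ ?_ ?_ ?_
  · intro a b b' e
    have e' := hinj 0 1 (ψ ![a, b]) (ψ ![a, b']) e (by
      intro k hk
      rw [hψ, hψ]
      fin_cases k
      · rfl
      · exact absurd rfl hk)
    have := congrArg φ e'
    rw [hψ, hψ] at this
    exact congrFun this 1
  · intro b a a' e
    have e' := hinj 0 0 (ψ ![a, b]) (ψ ![a', b]) e (by
      intro k hk
      rw [hψ, hψ]
      fin_cases k
      · exact absurd rfl hk
      · rfl)
    have := congrArg φ e'
    rw [hψ, hψ] at this
    exact congrFun this 0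
  · intro a b b' e
    have e' := hinj 1 1 (ψ ![a, b]) (ψ ![a, b']) e (by
      intro k hk
      rw [hψ, hψ]
      fin_cases k
      · rfl
      · exact absurd rfl hk)
    have := congrArg φ e'
    rw [hψ, hψ] at this
    exact congrFun this 1
  · intro b a a' e
    have e' := hinj 1 0 (ψ ![a, b]) (ψ ![a', b]) e (by
      intro k hk
      rw [hψ, hψ]
      fin_cases k
      · exact absurd rfl hk
      · rfl)
    have := congrArg φ e'
    rw [hψ, hψ] at this
    exact congrFun this 0
  · intro a b a' b' e0 e1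
    have e' : ψ ![a, b] = ψ ![a', b'] := by
      funext k
      fin_cases k
      · exact e0
      · exact e1
    have := congrArg φ e'
    rw [hψ, hψ] at this
    exact ⟨congrFun this 0, congrFun this 1⟩

/-- a `(1,4,6)`-AONT exists -/
theorem four : ExistsAONT 1 4 6 := by
  obtain ⟨C, ⟨hC1, hC2⟩, -⟩ :=
    Pool.Agent.TH7.Cyc.exists_cyc_even (m := 4) le_rfl ⟨2, rfl⟩
  have hb := hC2 id injective_id
  obtain ⟨φ, h1, h2⟩ := bijective_iff_has_inverse.1 hb
  have hφ : Bijective φ := bijective_iff_has_inverse.2 ⟨_, h2, h1⟩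
  refine ⟨φ, hφ, fun I J hI hJ => ?_⟩
  rw [Fintype.bijective_iff_injective_and_card]
  constructor
  · intro x x' e
    have e1 := congrArg Prod.fst e
    have e2 := congrArg Prod.snd e
    obtain ⟨i, rfl⟩ := Finset.card_eq_one.1 hI
    obtain ⟨j, rfl⟩ := Finset.card_eq_one.1 hJ
    have f1 : x i = x' i := congrFun e1 ⟨i, Finset.mem_singleton_self i⟩
    have f2 : ∀ k, k ≠ j → φ x k = φ x' k := fun k hk =>
      congrFun e2 ⟨k, by rwa [Finset.mem_singleton]⟩
    have g1 : C i (φ x) = x i := congrFun (h2 x) i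
    have g2 : C i (φ x') = x' i := congrFun (h2 x') i
    have u1 : update (φ x) j (φ x j) = φ x := update_eq_self _ _
    have u2 : update (φ x) j (φ x' j) = φ x' := by
      funext k
      by_cases hk : k = j
      · subst hk; rw [update_self]
      · rw [update_of_ne hk]; exact f2 k hk
    have g3 : C i (update (φ x) j (φ x j)) = C i (update (φ x) j (φ x' j)) := by
      rw [u1, u2, g1, g2, f1]
    have g4 := (hC1 i j (φ x)).1 g3
    apply hφ.1
    rw [← u2, ← g4, u1]
  · have c1 : Fintype.card {i // i ∈ I} = 1 := by rw [Fintype.card_coe, hI]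
    have c2 : Fintype.card {j // j ∉ J} = 3 := by
      rw [Fintype.card_subtype_compl, Fintype.card_coe, hJ, Fintype.card_fin]
    rw [Fintype.card_prod, Fintype.card_fun, Fintype.card_fun, Fintype.card_fun, c1, c2]
    simp

theorem result : ∃ v t s : ℕ, 1 ≤ v ∧ 1 ≤ t ∧ t ≤ s - 1 ∧
    ExistsAONT t s v ∧ ¬ ExistsAONT t (s - 1) v := by
  by_cases h : ExistsAONT 1 3 6
  · exact ⟨6, 1, 3, by norm_num, by norm_num, by norm_num, h, not_two⟩
  · exact ⟨6, 1, 4, by norm_num, by norm_num, by norm_num, four, h⟩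

end Pool.Agent.Results.MP_2d9e0f_co.OrderSix
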